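import Mathlib

set_option autoImplicit false

namespace Pool.Agent.H.MP_8d5faa_co

open Finset

variable {F : Type} [Field F]

/-- Hermitian form attached to a ring endomorphism. -/
def h (s : F →+* F) (x y : Fin 3 → F) : F := x 0 * s (y 0) + x 1 * s (y 1) + x 2 * s (y 2)

lemma h_symm (s : F →+* F) (hs : ∀ a, s (s a) = a) (x y : Fin 3 → F) : h s y x = s (h s x y) := by
  simp only [h, map_add, map_mul, hs]; ring

lemma h_smul (s : F →+* F) (a b : F) (x y : Fin 3 → F) :
    h s (a • x) (b • y) = a * s b * h s x y := by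
  simp only [h, Pi.smul_apply, smul_eq_mul, map_mul]; ring

lemma h_zero_symm (s : F →+* F) (hs : ∀ a, s (s a) = a) {x y : Fin 3 → F} (e : h s x y = 0) :
    h s y x = 0 := by rw [h_symm s hs, e, map_zero]

/-- The unitary group. -/
def U (s : F →+* F) : Subgroup ((Fin 3 → F) ≃ₗ[F] (Fin 3 → F)) where
  carrier := {g | ∀ x y, h s (g x) (g y) = h s x y}
  mul_mem' := by
    intro a b ha hb x y
    simp only [LinearEquiv.mul_apply]
    rw [ha, hb]
  one_mem' := by intro x y; rfl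
  inv_mem' := by
    intro a ha x y
    have := ha (a⁻¹ x) (a⁻¹ y)
    rw [← this]
    simp [LinearEquiv.coe_inv]

/-- Linear map with given columns. -/
def col (x y z : Fin 3 → F) : (Fin 3 → F) →ₗ[F] (Fin 3 → F) where
  toFun v := v 0 • x + v 1 • y + v 2 • z
  map_add' := by intro a b; simp only [Pi.add_apply, add_smul]; abel
  map_smul' := by intro c a; simp only [Pi.smul_apply, smul_eq_mul, RingHom.id_apply, smul_add, mul_smul]

def e0 : Fin 3 → F := ![1, 0, 0]
def e1 : Fin 3 → F := ![0, 1, 0]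

lemma frame1 (s : F →+* F) (hs : ∀ a, s (s a) = a) (x y : Fin 3 → F)
    (hx : h s x x = 1) (hy : h s y y = 1) (hxy : h s x y = 0) :
    ∃ u ∈ U s, u e0 = x ∧ u e1 = y := by
  have hyx := h_zero_symm s hs hxy
  set z : Fin 3 → F := ![s (x 1 * y 2 - x 2 * y 1), s (x 2 * y 0 - x 0 * y 2), s (x 0 * y 1 - x 1 * y 0)]
    with hz
  have hxz : h s x z = 0 := by
    simp only [h, hz, Matrix.cons_val_zero, Matrix.cons_val_one, Matrix.cons_val, hs]; ring
  have hyz : h s y z = 0 := by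
    simp only [h, hz, Matrix.cons_val_zero, Matrix.cons_val_one, Matrix.cons_val, hs]; ring
  have hzx := h_zero_symm s hs hxz
  have hzy := h_zero_symm s hs hyz
  have hzz : h s z z = 1 := by
    have e : h s z z = h s x x * h s y y - h s x y * h s y x := by
      simp only [h, hz, Matrix.cons_val_zero, Matrix.cons_val_one, Matrix.cons_val, hs, map_sub, map_mul]
      ring
    rw [e, hx, hy, hxy]; ring
  have key : ∀ v w, h s (col x y z v) (col x y z w) = h s v w := by
    intro v w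
    have e : h s (col x y z v) (col x y z w) =
        v 0 * s (w 0) * h s x x + v 0 * s (w 1) * h s x y + v 0 * s (w 2) * h s x z +
        v 1 * s (w 0) * h s y x + v 1 * s (w 1) * h s y y + v 1 * s (w 2) * h s y z +
        v 2 * s (w 0) * h s z x + v 2 * s (w 1) * h s z y + v 2 * s (w 2) * h s z z := by
      simp only [h, col, LinearMap.coe_mk, AddHom.coe_mk, Pi.add_apply, Pi.smul_apply, smul_eq_mul,
        map_add, map_mul]
      ring
    rw [e, hx, hy, hzz, hxy, hxz, hyx, hyz, hzx, hzy]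
    simp only [h]; ring
  have hinj : Function.Injective (col x y z) := by
    rw [← LinearMap.ker_eq_bot, LinearMap.ker_eq_bot']
    intro v hv
    have a0 := key v ![1, 0, 0]
    have a1 := key v ![0, 1, 0]
    have a2 := key v ![0, 0, 1]
    rw [hv] at a0 a1 a2
    simp [h] at a0 a1 a2
    funext i
    fin_cases i
    · exact a0.symm
    · exact a1.symm
    · exact a2.symm
  refine ⟨LinearEquiv.ofInjectiveEndo (col x y z) hinj, fun v w => key v w, ?_, ?_⟩
  · simp [col, e0]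
  · simp [col, e1]

lemma frame (s : F →+* F) (hs : ∀ a, s (s a) = a)
    (hN : ∀ t : F, t ≠ 0 → s t = t → ∃ l, l * s l = t) (x y : Fin 3 → F)
    (hx : h s x x ≠ 0) (hy : h s y y ≠ 0) (hxy : h s x y = 0) :
    ∃ u ∈ U s, ∃ a b : F, a ≠ 0 ∧ b ≠ 0 ∧ x = a • u e0 ∧ y = b • u e1 := by
  obtain ⟨a, ha⟩ := hN _ hx (h_symm s hs x x).symm
  obtain ⟨b, hb⟩ := hN _ hy (h_symm s hs y y).symm
  have a0 : a ≠ 0 := by rintro rfl; apply hx; rw [← ha, zero_mul]
  have b0 : b ≠ 0 := by rintro rfl; apply hy; rw [← hb, zero_mul]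
  have sa : s a ≠ 0 := by intro e; apply hx; rw [← ha, e, mul_zero]
  have sb : s b ≠ 0 := by intro e; apply hy; rw [← hb, e, mul_zero]
  obtain ⟨u, hu, h0, h1⟩ := frame1 s hs (a⁻¹ • x) (b⁻¹ • y)
    (by rw [h_smul, ← ha, map_inv₀]; field_simp)
    (by rw [h_smul, ← hb, map_inv₀]; field_simp)
    (by rw [h_smul, hxy, mul_zero])
  refine ⟨u, hu, a, b, a0, b0, ?_, ?_⟩
  · rw [h0, smul_smul, mul_inv_cancel₀ a0, one_smul]
  · rw [h1, smul_smul, mul_inv_cancel₀ b0, one_smul]

variable [Fintype F]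

instance (s : F →+* F) : Finite (U s) := by
  have : Finite ((Fin 3 → F) ≃ₗ[F] (Fin 3 → F)) :=
    Finite.of_injective (fun g => (g : (Fin 3 → F) → (Fin 3 → F))) DFunLike.coe_injective
  infer_instance

noncomputable instance (s : F →+* F) : Fintype (U s) := Fintype.ofFinite _

/-- Orthogonal pairs of non isotropic vectors. -/
def Ed (s : F →+* F) (x y : Fin 3 → F) : Prop := h s x x ≠ 0 ∧ h s y y ≠ 0 ∧ h s x y = 0

lemma avg (s : F →+* F) (hs : ∀ a, s (s a) = a)
    (hN : ∀ t : F, t ≠ 0 → s t = t → ∃ l, l * s l = t)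
    (φ : (Fin 3 → F) → (Fin 3 → F) → ℤ)
    (hφ : ∀ a b : F, a ≠ 0 → b ≠ 0 → ∀ x y, φ (a • x) (b • y) = φ x y)
    {x y : Fin 3 → F} (e : Ed s x y) :
    ∑ g : U s, φ (g.1 x) (g.1 y) = ∑ g : U s, φ (g.1 e0) (g.1 e1) := by
  obtain ⟨u, hu, a, b, a0, b0, rfl, rfl⟩ := frame s hs hN x y e.1 e.2.1 e.2.2
  simp only [map_smul, hφ _ _ a0 b0]
  exact Fintype.sum_equiv (Equiv.mulRight (⟨u, hu⟩ : U s)) _ _ (fun g => rfl)

open Classical in
lemma spread (s : F →+* F) (φ : (Fin 3 → F) → (Fin 3 → F) → ℤ)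
    (hφ : ∀ x y, Ed s x y → 0 ≤ ∑ g : U s, φ (g.1 x) (g.1 y)) :
    0 ≤ ∑ x, ∑ y, if Ed s x y then φ x y else 0 := by
  have h1 : 0 ≤ ∑ x, ∑ y, if Ed s x y then ∑ g : U s, φ (g.1 x) (g.1 y) else 0 := by
    refine sum_nonneg fun x _ => sum_nonneg fun y _ => ?_
    split_ifs with e
    · exact hφ x y e
    · exact le_rfl
  have h2 : ∀ g : U s, (∑ x, ∑ y, if Ed s x y then φ (g.1 x) (g.1 y) else 0) =
      ∑ x, ∑ y, if Ed s x y then φ x y else 0 := by
    intro g
    refine Fintype.sum_equiv g.1.toEquiv _ _ fun x => ?_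
    refine Fintype.sum_equiv g.1.toEquiv _ _ fun y => ?_
    have : Ed s x y ↔ Ed s (g.1 x) (g.1 y) := by
      simp only [Ed, g.2 x x, g.2 y y, g.2 x y]
    simp only [this]
    rfl
  have h3 : (∑ x, ∑ y, if Ed s x y then ∑ g : U s, φ (g.1 x) (g.1 y) else 0) =
      ∑ g : U s, ∑ x, ∑ y, if Ed s x y then φ (g.1 x) (g.1 y) else 0 := by
    rw [sum_comm (s := (univ : Finset (U s)))]
    refine sum_congr rfl fun x _ => ?_
    rw [sum_comm (s := (univ : Finset (U s)))]
    refine sum_congr rfl fun y _ => ?_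
    split_ifs <;> simp
  rw [h3] at h1
  simp only [h2, sum_const, card_univ, nsmul_eq_mul] at h1
  have : (0 : ℤ) < (Fintype.card (U s) : ℤ) := by exact_mod_cast Fintype.card_pos
  exact nonneg_of_mul_nonneg_right h1 this |> fun t => by simpa using t

end Pool.Agent.H.MP_8d5faa_co
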