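import Mathlib
import Pool.Agent.H.MP_8d5faa_co.A

set_option autoImplicit false

namespace Pool.Agent.H.MP_8d5faa_co

open Finset

variable {F : Type} [Field F]

abbrev Z3 := ℤ × ℤ × ℤ

def iv (a : Z3) : Fin 3 → F := ![(a.1 : F), (a.2.1 : F), (a.2.2 : F)]

def dt (a b : Z3) : ℤ := a.1 * b.1 + a.2.1 * b.2.1 + a.2.2 * b.2.2

lemma h_iv (s : F →+* F) (a b : Z3) : h s (iv a) (iv b) = ((dt a b : ℤ) : F) := by
  simp [h, iv, dt]

def ed (a b : Z3) : Prop := ¬ (7 : ℤ) ∣ dt a a ∧ ¬ (7 : ℤ) ∣ dt b b ∧ (7 : ℤ) ∣ dt a b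

instance (a b : Z3) : Decidable (ed a b) := by unfold ed; infer_instance

lemma ed_iv [CharP F 7] (s : F →+* F) {a b : Z3} (e : ed a b) : Ed s (iv a) (iv b) := by
  simp only [Ed, h_iv, ne_eq, CharP.intCast_eq_zero_iff F 7]
  exact e

def C : List (Z3 × Z3 × Z3) :=
  [((0, 1, 1), (0, 1, 6), (1, 0, 0)), ((0, 1, 1), (1, 2, 5), (1, 5, 2)), ((0, 1, 6), (1, 2, 2), (1, 5, 5)),
   ((1, 0, 2), (1, 1, 3), (1, 4, 3)), ((1, 0, 2), (1, 3, 3), (1, 6, 3)), ((1, 0, 5), (1, 1, 4), (1, 4, 4)),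
   ((1, 0, 5), (1, 3, 4), (1, 6, 4)), ((1, 1, 3), (1, 3, 1), (1, 5, 5)), ((1, 1, 4), (1, 3, 6), (1, 5, 2)),
   ((1, 2, 0), (1, 3, 1), (1, 3, 4)), ((1, 2, 0), (1, 3, 3), (1, 3, 6)), ((1, 2, 2), (1, 4, 6), (1, 6, 4)),
   ((1, 2, 5), (1, 4, 1), (1, 6, 3)), ((1, 4, 1), (1, 4, 4), (1, 5, 0)), ((1, 4, 3), (1, 4, 6), (1, 5, 0))]

def R : List Z3 :=
  [(0, 1, 1), (0, 1, 6), (1, 2, 5), (1, 5, 2), (1, 2, 2), (1, 5, 5), (1, 0, 2), (1, 1, 3), (1, 4, 3),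
   (1, 3, 3), (1, 6, 3), (1, 0, 5), (1, 1, 4), (1, 4, 4), (1, 3, 4), (1, 6, 4), (1, 3, 1), (1, 3, 6),
   (1, 2, 0), (1, 4, 6), (1, 4, 1), (1, 5, 0)]

lemma C_ok : ∀ T ∈ C, ed T.1 T.2.1 ∧ ed T.2.1 T.2.2 ∧ ed T.2.2 T.1 := by decide

lemma par (φ : Z3 → ℤ) :
    (C.map fun T => φ T.1 + φ T.2.1 + φ T.2.2).sum = φ (1, 0, 0) + 2 * (R.map φ).sum := by
  simp only [C, R, List.map, List.sum_cons, List.sum_nil]
  ring

lemma ineq (φ : Z3 → ℤ) (h01 : ∀ a, φ a = 0 ∨ φ a = 1)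
    (ht : ∀ T ∈ C, φ T.1 * φ T.2.1 * φ T.2.2 = 0) :
    φ (1, 0, 0) ≤ (C.map fun T => (φ T.1 - 2 * (φ T.1 * φ T.2.1)) + (φ T.2.1 - 2 * (φ T.2.1 * φ T.2.2))
      + (φ T.2.2 - 2 * (φ T.2.2 * φ T.1))).sum := by
  have h0 : 0 ≤ (C.map fun T => (φ T.1 - 2 * (φ T.1 * φ T.2.1)) + (φ T.2.1 - 2 * (φ T.2.1 * φ T.2.2))
      + (φ T.2.2 - 2 * (φ T.2.2 * φ T.1))).sum := by
    apply List.sum_nonneg
    intro x hx
    obtain ⟨T, hT, rfl⟩ := List.mem_map.1 hx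
    have := ht T hT
    rcases h01 T.1 with a | a <;> rcases h01 T.2.1 with b | b <;> rcases h01 T.2.2 with c | c <;>
      rw [a, b, c] at this ⊢ <;> simp at this ⊢
  have h1 : ∀ l : List (Z3 × Z3 × Z3), (l.map fun T => (φ T.1 - 2 * (φ T.1 * φ T.2.1)) +
      (φ T.2.1 - 2 * (φ T.2.1 * φ T.2.2)) + (φ T.2.2 - 2 * (φ T.2.2 * φ T.1))).sum =
      (l.map fun T => φ T.1 + φ T.2.1 + φ T.2.2).sum -
        2 * (l.map fun T => φ T.1 * φ T.2.1 + φ T.2.1 * φ T.2.2 + φ T.2.2 * φ T.1).sum := by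
    intro l
    induction l with
    | nil => simp
    | cons T l ih => simp only [List.map, List.sum_cons, ih]; ring
  rw [h1, par] at h0 ⊢
  rcases h01 (1, 0, 0) with a | a <;> omega

lemma sum_list {α β : Type} [Fintype β] (l : List α) (ψ : β → α → ℤ) (c : ℤ)
    (hc : ∀ T ∈ l, ∑ g, ψ g T = c) : ∑ g, (l.map (ψ g)).sum = l.length * c := by
  induction l with
  | nil => simp
  | cons T l ih =>
    simp only [List.map, List.sum_cons, sum_add_distrib, List.length_cons]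
    rw [ih (fun T hT => hc T (List.mem_cons_of_mem _ hT)), hc T List.mem_cons_self]
    push_cast; ring

variable [Fintype F]

open Classical in
lemma main_ineq [CharP F 7] (s : F →+* F) (hs : ∀ a, s (s a) = a)
    (hN : ∀ t : F, t ≠ 0 → s t = t → ∃ l, l * s l = t)
    (f : (Fin 3 → F) → ℤ) (h01 : ∀ v, f v = 0 ∨ f v = 1)
    (hsc : ∀ a : F, a ≠ 0 → ∀ v, f (a • v) = f v)
    (htri : ∀ x y z, Ed s x y → Ed s y z → Ed s z x → f x * f y * f z = 0) :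
    0 ≤ ∑ x, ∑ y, if Ed s x y then 44 * f x - 90 * (f x * f y) else 0 := by
  apply spread s (fun x y => 44 * f x - 90 * (f x * f y))
  intro x y e
  have hU : ∀ (g : U s) x y, Ed s x y → Ed s (g.1 x) (g.1 y) := by
    intro g x y e
    simpa only [Ed, g.2 x x, g.2 y y, g.2 x y] using e
  have a1 : ∀ x y, Ed s x y → ∑ g : U s, (f (g.1 x) - 2 * (f (g.1 x) * f (g.1 y))) =
      ∑ g : U s, (f (g.1 e0) - 2 * (f (g.1 e0) * f (g.1 e1))) := fun x y e =>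
    avg s hs hN (fun x y => f x - 2 * (f x * f y)) (fun a b a0 b0 x y => by
      simp only [hsc a a0, hsc b b0]) e
  have a2 : ∀ x y, Ed s x y → ∑ g : U s, f (g.1 x) = ∑ g : U s, f (g.1 e0) := fun x y e =>
    avg s hs hN (fun x _ => f x) (fun a b a0 _ x y => by simp only [hsc a a0]) e
  have k : ∑ g : U s, f (g.1 (iv (1, 0, 0))) ≤ ∑ g : U s, (C.map fun T =>
      (f (g.1 (iv T.1)) - 2 * (f (g.1 (iv T.1)) * f (g.1 (iv T.2.1)))) +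
      (f (g.1 (iv T.2.1)) - 2 * (f (g.1 (iv T.2.1)) * f (g.1 (iv T.2.2)))) +
      (f (g.1 (iv T.2.2)) - 2 * (f (g.1 (iv T.2.2)) * f (g.1 (iv T.1))))).sum := by
    refine sum_le_sum fun g _ => ineq (fun a => f (g.1 (iv a))) (fun a => h01 _) ?_
    intro T hT
    obtain ⟨p1, p2, p3⟩ := C_ok T hT
    exact htri _ _ _ (hU g _ _ (ed_iv s p1)) (hU g _ _ (ed_iv s p2)) (hU g _ _ (ed_iv s p3))
  rw [sum_list C _ (3 * ∑ g : U s, (f (g.1 e0) - 2 * (f (g.1 e0) * f (g.1 e1))))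
    (fun T hT => by
      obtain ⟨p1, p2, p3⟩ := C_ok T hT
      rw [sum_add_distrib, sum_add_distrib, a1 _ _ (ed_iv s p1), a1 _ _ (ed_iv s p2),
        a1 _ _ (ed_iv s p3)]
      ring)] at k
  rw [a2 _ _ (ed_iv s (show ed (1, 0, 0) (0, 1, 1) by decide)), ← a2 _ _ e, ← a1 _ _ e] at k
  have hl : (C.length : ℤ) = 15 := by rfl
  rw [hl] at k
  simp only [sum_sub_distrib, ← mul_sum] at k ⊢
  linarith

end Pool.Agent.H.MP_8d5faa_co
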