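import Mathlib
import Pool.Agent.H.MP_8d5faa_co.B

set_option autoImplicit false

namespace Pool.Agent.H.MP_8d5faa_co

open Finset

variable {F : Type} [Field F]

def cz (x w : Fin 3 → F) : Prop :=
  x 1 * w 2 = x 2 * w 1 ∧ x 2 * w 0 = x 0 * w 2 ∧ x 0 * w 1 = x 1 * w 0

lemma cz_par {x w : Fin 3 → F} (hw : w ≠ 0) (e : cz x w) : ∃ c : F, x = c • w := by
  obtain ⟨e1, e2, e3⟩ := e
  by_cases h0 : w 0 = 0
  · by_cases h1 : w 1 = 0
    · have h2 : w 2 ≠ 0 := by
        intro h2; apply hw; funext i; fin_cases i <;> simp [h0, h1, h2]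
      refine ⟨x 2 / w 2, ?_⟩
      funext i; fin_cases i <;> simp <;> field_simp
      · exact e2.symm
      · exact e1
    · refine ⟨x 1 / w 1, ?_⟩
      funext i; fin_cases i <;> simp <;> field_simp
      · exact e3
      · exact e1.symm
  · refine ⟨x 0 / w 0, ?_⟩
    funext i; fin_cases i <;> simp <;> field_simp
    · exact e3.symm
    · exact e2

variable [Fintype F]

open Classical in
lemma card_cz {w : Fin 3 → F} (hw : w ≠ 0) :
    (univ.filter fun x => cz x w).card ≤ Fintype.card F := by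
  calc _ ≤ (univ.image fun c : F => c • w).card := by
        apply card_le_card
        intro x hx
        obtain ⟨c, rfl⟩ := cz_par hw (mem_filter.1 hx).2
        exact mem_image_of_mem _ (mem_univ _)
    _ ≤ _ := card_image_le

open Classical in
lemma card_perp (s : F →+* F) {y : Fin 3 → F} (hy : y ≠ 0) :
    (univ.filter fun x => h s x y = 0).card = Fintype.card F ^ 2 := by
  let φ : (Fin 3 → F) →ₗ[F] F :=
    { toFun := fun x => h s x y
      map_add' := by intro a b; simp only [h, Pi.add_apply]; ring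
      map_smul' := by intro c a; simp only [h, Pi.smul_apply, smul_eq_mul, RingHom.id_apply]; ring }
  have hne : φ ≠ 0 := by
    intro e
    apply hy
    have a0 : φ ![1, 0, 0] = 0 := by rw [e]; rfl
    have a1 : φ ![0, 1, 0] = 0 := by rw [e]; rfl
    have a2 : φ ![0, 0, 1] = 0 := by rw [e]; rfl
    simp [φ, h] at a0 a1 a2
    funext i; fin_cases i <;> simp [a0, a1, a2]
  have hk := Module.Dual.finrank_ker_add_one_of_ne_zero hne
  have hk2 : Module.finrank F (LinearMap.ker φ) = 2 := by simpa using hk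
  have := Module.card_eq_pow_finrank (K := F) (V := LinearMap.ker φ)
  rw [hk2] at this
  rw [← this, Fintype.card_subtype]
  rfl

open Classical in
lemma card_perp2 (s : F →+* F) {y y' : Fin 3 → F} (e : ¬ cz y' y) :
    (univ.filter fun x => h s x y = 0 ∧ h s x y' = 0).card ≤ Fintype.card F := by
  set w : Fin 3 → F := ![s (y' 1 * y 2 - y' 2 * y 1), s (y' 2 * y 0 - y' 0 * y 2),
    s (y' 0 * y 1 - y' 1 * y 0)] with hw
  have hw0 : w ≠ 0 := by
    intro w0
    apply e
    have a0 := congrFun w0 0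
    have a1 := congrFun w0 1
    have a2 := congrFun w0 2
    simp only [hw, Matrix.cons_val_zero, Matrix.cons_val_one, Matrix.cons_val, Pi.zero_apply,
      map_eq_zero, sub_eq_zero] at a0 a1 a2
    exact ⟨a0, a1, a2⟩
  refine le_trans (card_le_card ?_) (card_cz hw0)
  intro x hx
  obtain ⟨p, p'⟩ := (mem_filter.1 hx).2
  simp only [h] at p p'
  refine mem_filter.2 ⟨mem_univ _, ?_, ?_, ?_⟩ <;>
    simp only [hw, Matrix.cons_val_zero, Matrix.cons_val_one, Matrix.cons_val, map_sub, map_mul]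
  · linear_combination s (y' 0) * p - s (y 0) * p'
  · linear_combination s (y' 1) * p - s (y 1) * p'
  · linear_combination s (y' 2) * p - s (y 2) * p'

open Classical in
lemma mixing (s : F →+* F) (A : Finset (Fin 3 → F)) (hA : ∀ y ∈ A, y ≠ 0) (q : ℕ)
    (hq : Fintype.card F = q ^ 2) (hq0 : 0 < q) :
    (A.card : ℤ) ^ 2 - q ^ 2 * ∑ x ∈ A, ((A.filter fun y => h s x y = 0).card : ℤ) ≤ A.card * q ^ 5 := by
  set d : (Fin 3 → F) → ℤ := fun x => ((A.filter fun y => h s x y = 0).card : ℤ) with hd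
  have hd' : ∀ x, d x = ∑ y ∈ A, if h s x y = 0 then 1 else 0 := by
    intro x; simp [hd]
  have s1 : ∑ x, d x = A.card * (q : ℤ) ^ 4 := by
    simp only [hd']
    rw [sum_comm]
    rw [sum_congr rfl (g := fun _ => (q : ℤ) ^ 4)]
    · simp
    · intro y hy
      have := card_perp s (hA y hy)
      rw [hq] at this
      simp only [sum_boole, this]; push_cast; ring
  have s2 : ∑ x, d x ^ 2 ≤ A.card * (A.card * (q : ℤ) ^ 2 + q ^ 6) := by
    have e1 : ∑ x, d x ^ 2 = ∑ y ∈ A, ∑ y' ∈ A,
        ((univ.filter fun x => h s x y = 0 ∧ h s x y' = 0).card : ℤ) := by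
      simp only [hd', sq, sum_mul_sum]
      rw [sum_comm]
      refine sum_congr rfl fun y _ => ?_
      rw [sum_comm]
      refine sum_congr rfl fun y' _ => ?_
      rw [card_filter]
      push_cast
      refine sum_congr rfl fun x _ => ?_
      by_cases p : h s x y = 0 <;> by_cases p' : h s x y' = 0 <;> simp [p, p']
    rw [e1]
    have e2 : ∀ y ∈ A, ∑ y' ∈ A, ((univ.filter fun x => h s x y = 0 ∧ h s x y' = 0).card : ℤ) ≤
        A.card * (q : ℤ) ^ 2 + q ^ 6 := by
      intro y hy
      calc _ ≤ ∑ y' ∈ A, ((q : ℤ) ^ 2 + if cz y' y then (q : ℤ) ^ 4 else 0) := by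
            refine sum_le_sum fun y' _ => ?_
            split_ifs with c
            · have h1 : (univ.filter fun x => h s x y = 0 ∧ h s x y' = 0).card ≤
                  (univ.filter fun x => h s x y = 0).card :=
                card_le_card (fun x hx => mem_filter.2 ⟨mem_univ _, (mem_filter.1 hx).2.1⟩)
              rw [card_perp s (hA y hy), hq] at h1
              have h2 : ((univ.filter fun x => h s x y = 0 ∧ h s x y' = 0).card : ℤ) ≤ ((q ^ 2) ^ 2 : ℕ) := by
                exact_mod_cast h1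
              push_cast at h2
              nlinarith [sq_nonneg (q : ℤ)]
            · have h1 := card_perp2 s c
              rw [hq] at h1
              have h2 : ((univ.filter fun x => h s x y = 0 ∧ h s x y' = 0).card : ℤ) ≤ ((q ^ 2) : ℕ) := by
                exact_mod_cast h1
              push_cast at h2
              linarith
        _ = A.card * (q : ℤ) ^ 2 + (A.filter fun y' => cz y' y).card * (q : ℤ) ^ 4 := by
            rw [sum_add_distrib, ← sum_filter]; simp
        _ ≤ _ := by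
            have h1 : (A.filter fun y' => cz y' y).card ≤ (univ.filter fun x => cz x y).card :=
              card_le_card (fun x hx => mem_filter.2 ⟨mem_univ _, (mem_filter.1 hx).2⟩)
            have h2 := h1.trans (card_cz (hA y hy))
            rw [hq] at h2
            have h3 : ((A.filter fun y' => cz y' y).card : ℤ) ≤ ((q ^ 2) : ℕ) := by exact_mod_cast h2
            push_cast at h3
            have : (0 : ℤ) ≤ (q : ℤ) ^ 4 := by positivity
            nlinarith
    calc _ ≤ ∑ _y ∈ A, (A.card * (q : ℤ) ^ 2 + q ^ 6) := sum_le_sum e2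
      _ = _ := by simp
  have s3 : ∑ x, ((q : ℤ) ^ 2 * d x - A.card) ^ 2 ≤ A.card * (q : ℤ) ^ 10 := by
    have e : ∑ x, ((q : ℤ) ^ 2 * d x - A.card) ^ 2 = (q : ℤ) ^ 4 * ∑ x, d x ^ 2 -
        2 * q ^ 2 * A.card * ∑ x, d x + (q : ℤ) ^ 6 * (A.card : ℤ) ^ 2 := by
      have : ((q : ℤ) ^ 6 * (A.card : ℤ) ^ 2) = ∑ _x : Fin 3 → F, (A.card : ℤ) ^ 2 := by
        simp [hq]; left; ring
      rw [this, mul_sum, mul_sum, ← sum_sub_distrib, ← sum_add_distrib]
      exact sum_congr rfl fun x _ => by ring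
    rw [e, s1]
    have : (0 : ℤ) ≤ (q : ℤ) ^ 4 := by positivity
    nlinarith
  have s4 : ∑ x ∈ A, ((q : ℤ) ^ 2 * d x - A.card) ^ 2 ≤ A.card * (q : ℤ) ^ 10 :=
    le_trans (sum_le_sum_of_subset_of_nonneg (subset_univ _) fun _ _ _ => sq_nonneg _) s3
  have s5 : ∑ x ∈ A, (2 * (q : ℤ) ^ 5 * (A.card - q ^ 2 * d x)) ≤
      ∑ x ∈ A, (((q : ℤ) ^ 2 * d x - A.card) ^ 2 + q ^ 10) :=
    sum_le_sum fun x _ => by nlinarith [sq_nonneg ((q : ℤ) ^ 2 * d x - A.card + q ^ 5)]
  rw [sum_add_distrib, ← mul_sum, sum_sub_distrib, ← mul_sum] at s5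
  simp only [sum_const, nsmul_eq_mul] at s5
  have q5 : (0 : ℤ) < 2 * (q : ℤ) ^ 5 := by positivity
  refine le_of_mul_le_mul_left ?_ q5
  nlinarith

open Classical in
lemma bound [CharP F 7] (s : F →+* F) (hs : ∀ a, s (s a) = a)
    (hN : ∀ t : F, t ≠ 0 → s t = t → ∃ l, l * s l = t)
    (A : Finset (Fin 3 → F)) (hA : ∀ y ∈ A, h s y y ≠ 0)
    (hsc : ∀ a : F, a ≠ 0 → ∀ v, (a • v ∈ A ↔ v ∈ A))
    (htri : ∀ x ∈ A, ∀ y ∈ A, ∀ z ∈ A, ¬ (h s x y = 0 ∧ h s y z = 0 ∧ h s z x = 0))
    (q : ℕ) (hq : Fintype.card F = q ^ 2) (hq0 : 0 < q) :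
    90 * (A.card : ℤ) ≤ 44 * (q : ℤ) ^ 6 + 90 * q ^ 5 := by
  have hA0 : ∀ y ∈ A, y ≠ 0 := by
    rintro y hy rfl
    exact hA _ hy (by simp [h])
  have m := mixing s A hA0 q hq hq0
  have k := main_ineq s hs hN (fun v => if v ∈ A then 1 else 0) (fun v => by split_ifs <;> simp)
    (fun a a0 v => by simp only [hsc a a0]) (fun x y z e1 e2 e3 => by
      by_cases hx : x ∈ A <;> by_cases hy : y ∈ A <;> by_cases hz : z ∈ A <;> simp [hx, hy, hz]
      exact htri x hx y hy z hz ⟨e1.2.2, e2.2.2, e3.2.2⟩)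
  have k2 : (∑ x, ∑ y, if Ed s x y then 44 * (if x ∈ A then (1 : ℤ) else 0) -
      90 * ((if x ∈ A then (1 : ℤ) else 0) * (if y ∈ A then (1 : ℤ) else 0)) else 0) ≤
      ∑ x ∈ A, (44 * (q : ℤ) ^ 4 - 90 * ((A.filter fun y => h s x y = 0).card : ℤ)) := by
    rw [← sum_filter_add_sum_filter_not univ (fun x => x ∈ A)]
    have z : (∑ x ∈ univ.filter (fun x => ¬ x ∈ A), ∑ y, if Ed s x y then 44 * (if x ∈ A then (1 : ℤ) else 0) -
      90 * ((if x ∈ A then (1 : ℤ) else 0) * (if y ∈ A then (1 : ℤ) else 0)) else 0) = 0 := by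
      refine sum_eq_zero fun x hx => sum_eq_zero fun y _ => ?_
      simp [(mem_filter.1 hx).2]
    rw [z, add_zero, filter_mem_eq_inter, univ_inter]
    refine sum_le_sum fun x hx => ?_
    have c1 : (univ.filter fun y => h s x y = 0).card = q ^ 4 := by
      have := card_perp s (hA0 x hx)
      rw [hq, ← pow_mul] at this
      rw [← this]
      congr 1
      ext y
      simp only [mem_filter, mem_univ, true_and]
      exact ⟨h_zero_symm s hs, h_zero_symm s hs⟩
    have c2 : (44 * (q : ℤ) ^ 4 - 90 * ((A.filter fun y => h s x y = 0).card : ℤ)) =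
        ∑ y, ((if h s x y = 0 then 44 else 0) - if y ∈ A ∧ h s x y = 0 then 90 else 0) := by
      rw [sum_sub_distrib, ← sum_filter, ← sum_filter, sum_const, sum_const, c1]
      have : (univ.filter fun y => y ∈ A ∧ h s x y = 0) = A.filter fun y => h s x y = 0 := by
        ext y; simp
      rw [this]; simp; ring
    rw [c2]
    refine sum_le_sum fun y _ => ?_
    by_cases hy : y ∈ A
    · by_cases e : h s x y = 0
      · simp [hx, hy, e, Ed, hA x hx, hA y hy]
      · simp [e, Ed]
    · by_cases e : h s x y = 0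
      · simp only [hx, hy, e]; split_ifs <;> simp_all
      · simp [e, Ed]
  have k3 := k.trans k2
  rw [sum_sub_distrib, ← mul_sum (a := (90 : ℤ)), sum_const, nsmul_eq_mul] at k3
  rcases Nat.eq_zero_or_pos A.card with z | z
  · rw [z]; positivity
  · have z' : (0 : ℤ) < A.card := by exact_mod_cast z
    refine le_of_mul_le_mul_left ?_ z'
    have : (0 : ℤ) ≤ (q : ℤ) ^ 2 := by positivity
    nlinarith

end Pool.Agent.H.MP_8d5faa_co
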