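import Mathlib
import Pool.Agent.H.MP_8d5faa_co.C

set_option autoImplicit false

namespace Pool.Agent.H.MP_8d5faa_co

open Finset

variable {F : Type} [Field F] [Fintype F]

lemma norm_surj (q : ℕ) (hq : Fintype.card F = q ^ 2) (hq1 : 1 < q) (t : F) (t0 : t ≠ 0)
    (ht : t ^ q = t) : ∃ l : F, l * l ^ q = t := by
  classical
  obtain ⟨g, hg⟩ := IsCyclic.exists_generator (α := Fˣ)
  have ho : orderOf g = q ^ 2 - 1 := by
    rw [orderOf_eq_card_of_forall_mem_zpowers hg, Nat.card_eq_fintype_card, Fintype.card_units, hq]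
  obtain ⟨m, hm⟩ := (mem_powers_iff_mem_zpowers.2 (hg (Units.mk0 t t0)))
  simp only at hm
  obtain ⟨r, rfl⟩ : ∃ r, q = r + 1 := ⟨q - 1, by omega⟩
  have r0 : 0 < r := by omega
  have h1 : g ^ (m * r) = 1 := by
    rw [pow_mul, hm]
    ext
    simp only [Units.val_pow_eq_pow_val, Units.val_mk0, Units.val_one]
    rw [pow_succ] at ht
    exact mul_right_cancel₀ t0 (by rw [ht, one_mul])
  have h2 := orderOf_dvd_of_pow_eq_one h1
  have h3 : (r + 1) ^ 2 - 1 = (r + 2) * r := by
    have : (r + 1) ^ 2 = (r + 2) * r + 1 := by ring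
    omega
  rw [ho, h3] at h2
  obtain ⟨k, hk⟩ := Nat.dvd_of_mul_dvd_mul_right r0 h2
  refine ⟨((g ^ k : Fˣ) : F), ?_⟩
  have : (g ^ k) * (g ^ k) ^ (r + 1) = Units.mk0 t t0 := by
    rw [← hm, hk, ← pow_mul, ← pow_add]; congr 1; ring
  have := congrArg Units.val this
  simpa using this

open Classical in
lemma card_iso (s : F →+* F) (q : ℕ) (hsq : ∀ a, s a = a ^ q) :
    (univ.filter fun v => h s v v = 0).card ≤ (q + 1) * Fintype.card F ^ 2 := by
  have := card_le_mul_card_image_of_maps_to (s := univ.filter fun v : Fin 3 → F => h s v v = 0)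
    (t := (univ : Finset (F × F))) (f := fun v => (v 0, v 1)) (fun _ _ => mem_univ _) (q + 1) ?_
  · simpa [sq] using this
  · rintro ⟨a, b⟩ _
    calc _ ≤ (Polynomial.nthRoots (q + 1) (-(a * s a + b * s b))).toFinset.card := by
          apply card_le_card_of_injOn (fun v => v 2)
          · intro v hv
            simp only [coe_filter, mem_filter, mem_univ, true_and, Prod.mk.injEq, Set.mem_setOf_eq] at hv
            obtain ⟨e, rfl, rfl⟩ := hv
            simp only [mem_coe, Multiset.mem_toFinset]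
            rw [Polynomial.mem_nthRoots (Nat.succ_pos q), pow_succ', ← hsq]
            simp only [h] at e
            linear_combination e
          · intro v hv w hw e
            simp only [coe_filter, mem_filter, mem_univ, true_and, Prod.mk.injEq, Set.mem_setOf_eq] at hv hw
            funext i
            fin_cases i
            · exact hv.2.1.trans hw.2.1.symm
            · exact hv.2.2.trans hw.2.2.symm
            · exact e
      _ ≤ _ := (Multiset.toFinset_card_le _).trans (Polynomial.card_nthRoots _ _)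

open Classical in
theorem upper [CharP F 7] (s : F →+* F) (q : ℕ) (hsq : ∀ a, s a = a ^ q)
    (hq : Fintype.card F = q ^ 2) (hq1 : 1 < q) (S : Finset (Projectivization F (Fin 3 → F)))
    (hS : ∀ x ∈ S, ∀ y ∈ S, ∀ z ∈ S, x ≠ y → y ≠ z → x ≠ z →
          ¬ ((∑ i : Fin 3, x.rep i * (y.rep i) ^ q) = 0 ∧
             (∑ i : Fin 3, y.rep i * (z.rep i) ^ q) = 0 ∧
             (∑ i : Fin 3, x.rep i * (z.rep i) ^ q) = 0)) :
    90 * ((S.card : ℤ) * (q ^ 2 - 1)) ≤ 44 * (q : ℤ) ^ 6 + 90 * q ^ 5 + 90 * ((q + 1) * q ^ 4) := by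
  have hs : ∀ a, s (s a) = a := by
    intro a
    rw [hsq, hsq, ← pow_mul, ← sq, ← hq, FiniteField.pow_card]
  have hN : ∀ t : F, t ≠ 0 → s t = t → ∃ l, l * s l = t := by
    intro t t0 ht
    simp only [hsq] at ht ⊢
    exact norm_surj q hq hq1 t t0 ht
  have hh : ∀ x y : Fin 3 → F, (∑ i : Fin 3, x i * (y i) ^ q) = h s x y := by
    intro x y; simp only [Fin.sum_univ_three, h, hsq]
  simp only [hh] at hS
  set B : Finset (Fin 3 → F) := univ.filter fun v => ∃ P ∈ S, ∃ c : F, c ≠ 0 ∧ v = c • P.rep with hB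
  set A : Finset (Fin 3 → F) := B.filter fun v => h s v v ≠ 0 with hA
  have b := bound s hs hN A (fun y hy => (mem_filter.1 hy).2) ?_ ?_ q hq (by omega)
  · have c1 : (S ×ˢ (univ.erase (0 : F))).card ≤ B.card := by
      apply card_le_card_of_injOn (fun p => p.2 • p.1.rep)
      · rintro ⟨P, c⟩ hp
        simp only [coe_product, coe_erase, coe_univ, Set.mem_prod, mem_coe, Set.mem_diff,
          Set.mem_univ, Set.mem_singleton_iff, true_and] at hp
        exact mem_coe.2 (mem_filter.2 ⟨mem_univ _, P, hp.1, c, hp.2, rfl⟩)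
      · rintro ⟨P, c⟩ hp ⟨P', c'⟩ hp' e
        simp only [coe_product, coe_erase, coe_univ, Set.mem_prod, mem_coe, Set.mem_diff,
          Set.mem_univ, Set.mem_singleton_iff, true_and] at hp hp' e
        have e1 : P = P' := by
          rw [← P.mk_rep, ← P'.mk_rep, Projectivization.mk_eq_mk_iff']
          refine ⟨c⁻¹ * c', ?_⟩
          rw [mul_smul, ← e, smul_smul, inv_mul_cancel₀ hp.2, one_smul]
        subst e1
        have e2 : c = c' := smul_left_injective F P.rep_nonzero e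
        rw [e2]
    rw [card_product, card_erase_of_mem (mem_univ _), card_univ, hq] at c1
    have c2 : B.card ≤ A.card + (q + 1) * (q ^ 2) ^ 2 := by
      rw [← hq]
      refine le_trans ?_ (Nat.add_le_add_left (card_iso s q hsq) _)
      refine le_trans (card_le_card ?_) (card_union_le _ _)
      intro v hv
      by_cases e : h s v v = 0
      · exact mem_union_right _ (mem_filter.2 ⟨mem_univ _, e⟩)
      · exact mem_union_left _ (mem_filter.2 ⟨hv, e⟩)
    have c3 : ((S.card * (q ^ 2 - 1) : ℕ) : ℤ) ≤ ((A.card + (q + 1) * (q ^ 2) ^ 2 : ℕ) : ℤ) := by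
      exact_mod_cast c1.trans c2
    have : 1 ≤ q ^ 2 := Nat.one_le_pow _ _ (by omega)
    push_cast [Nat.cast_sub this] at c3
    nlinarith
  · have key : ∀ a : F, a ≠ 0 → ∀ v, v ∈ A → a • v ∈ A := by
      intro a a0 v hv
      obtain ⟨h1, h2⟩ := mem_filter.1 hv
      obtain ⟨P, hP, c, c0, rfl⟩ := (mem_filter.1 h1).2
      refine mem_filter.2 ⟨mem_filter.2 ⟨mem_univ _, P, hP, a * c, mul_ne_zero a0 c0, by rw [mul_smul]⟩, ?_⟩
      rw [h_smul]
      exact mul_ne_zero (mul_ne_zero a0 ((map_ne_zero s).2 a0)) h2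
    intro a a0 v
    refine ⟨fun hv => ?_, key a a0 v⟩
    have := key a⁻¹ (inv_ne_zero a0) _ hv
    rwa [smul_smul, inv_mul_cancel₀ a0, one_smul] at this
  · rintro x hx y hy z hz ⟨e1, e2, e3⟩
    obtain ⟨x1, x2⟩ := mem_filter.1 hx
    obtain ⟨y1, y2⟩ := mem_filter.1 hy
    obtain ⟨z1, _⟩ := mem_filter.1 hz
    obtain ⟨P, hP, a, a0, rfl⟩ := (mem_filter.1 x1).2
    obtain ⟨Q, hQ, b, b0, rfl⟩ := (mem_filter.1 y1).2
    obtain ⟨T, hT, c, c0, rfl⟩ := (mem_filter.1 z1).2
    have e3' := h_zero_symm s hs e3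
    rw [h_smul] at e1 e2 e3' x2 y2
    have n : ∀ u v : F, u ≠ 0 → v ≠ 0 → u * s v ≠ 0 :=
      fun u v u0 v0 => mul_ne_zero u0 ((map_ne_zero s).2 v0)
    have f1 := (mul_eq_zero.1 e1).resolve_left (n _ _ a0 b0)
    have f2 := (mul_eq_zero.1 e2).resolve_left (n _ _ b0 c0)
    have f3 := (mul_eq_zero.1 e3').resolve_left (n _ _ a0 c0)
    refine hS P hP Q hQ T hT ?_ ?_ ?_ ⟨f1, f2, f3⟩
    · rintro rfl; exact x2 (by rw [f1, mul_zero])
    · rintro rfl; exact y2 (by rw [f2, mul_zero])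
    · rintro rfl; exact x2 (by rw [f3, mul_zero])

end Pool.Agent.H.MP_8d5faa_co
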